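import Pool.Agent.K3h83.IN.Stm5

/-! Brick M3 (helper42): each irreducible representation of `N_G(P) / P` occurs in `V^P / (∑ x) V` for an
irreducible representation `V` of `G`, `|P| = p`. -/

set_option autoImplicit false

open scoped BigOperators Classical

noncomputable section

namespace Pool.Agent.K3h42.IN.M3

open Pool.Agent.K3h83.IN Pool.Agent.K3h3.MK

variable {F G : Type} [Field F] [Group G] [Finite G]

section gen

variable {V V₂ : Type} [AddCommGroup V] [Module F V] [AddCommGroup V₂] [Module F V₂]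
  {ρ : Representation F G V} {ρ₂ : Representation F G V₂} {P : Subgroup G}

lemma mem_TP [i : Fintype P] {v : V} : v ∈ TP ρ P ↔ ∃ u, ∑ x : P, ρ (x : G) u = v := by
  have h : Fintype.ofFinite P = i := Subsingleton.elim _ _
  unfold TP
  rw [LinearMap.mem_range, h]
  constructor
  · rintro ⟨u, hu⟩
    refine ⟨u, ?_⟩
    rw [LinearMap.sum_apply] at hu
    exact hu
  · rintro ⟨u, hu⟩
    refine ⟨u, ?_⟩
    rw [LinearMap.sum_apply]
    exact hu

lemma map_FP (φ : V →ₗ[F] V₂) (hφ : ∀ g v, φ (ρ g v) = ρ₂ g (φ v)) {v : V} (hv : v ∈ FP ρ P) :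
    φ v ∈ FP ρ₂ P := by
  intro x hx
  rw [← hφ, hv x hx]

lemma map_TP (φ : V →ₗ[F] V₂) (hφ : ∀ g v, φ (ρ g v) = ρ₂ g (φ v)) {v : V} (hv : v ∈ TP ρ P) :
    φ v ∈ TP ρ₂ P := by
  have := Fintype.ofFinite P
  obtain ⟨u, hu⟩ := mem_TP.1 hv
  refine mem_TP.2 ⟨φ u, ?_⟩
  rw [← hu, map_sum]
  exact Finset.sum_congr rfl fun x _ => (hφ _ _).symm

/-- conjugation -/
def conjE (k : G) (hk : ∀ h, h ∈ P ↔ k * h * k⁻¹ ∈ P) : P ≃ P where
  toFun x := ⟨k * x * k⁻¹, (hk x).1 x.2⟩
  invFun x := ⟨k⁻¹ * x * k, (hk _).2 (by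
    have e : k * (k⁻¹ * (x : G) * k) * k⁻¹ = x := by group
    rw [e]; exact x.2)⟩
  left_inv x := by
    apply Subtype.ext
    show k⁻¹ * (k * (x : G) * k⁻¹) * k = x
    group
  right_inv x := by
    apply Subtype.ext
    show k * (k⁻¹ * (x : G) * k) * k⁻¹ = x
    group

lemma TP_stable (k : G) (hk : ∀ h, h ∈ P ↔ k * h * k⁻¹ ∈ P) {v : V} (hv : v ∈ TP ρ P) :
    ρ k v ∈ TP ρ P := by
  have := Fintype.ofFinite P
  obtain ⟨u, hu⟩ := mem_TP.1 hv
  refine mem_TP.2 ⟨ρ k u, ?_⟩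
  rw [← hu, map_sum, ← (conjE k hk).sum_comp]
  refine Finset.sum_congr rfl fun x _ => ?_
  show ρ (k * (x : G) * k⁻¹) (ρ k u) = ρ k (ρ (x : G) u)
  rw [← Module.End.mul_apply, ← Module.End.mul_apply, ← map_mul, ← map_mul]
  congr 2
  group

lemma FP_stable (k : G) (hk : ∀ h, h ∈ P ↔ k * h * k⁻¹ ∈ P) {v : V} (hv : v ∈ FP ρ P) :
    ρ k v ∈ FP ρ P := by
  intro x hx
  have h1 : k⁻¹ * x * k ∈ P := (hk _).2 (by
    have e : k * (k⁻¹ * x * k) * k⁻¹ = x := by group
    rw [e]; exact hx)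
  have h2 := hv _ h1
  have h3 : ρ x (ρ k v) = ρ k (ρ (k⁻¹ * x * k) v) := by
    rw [← Module.End.mul_apply, ← Module.End.mul_apply, ← map_mul, ← map_mul]
    congr 2
    group
  rw [h3, h2]

lemma TP_le_FP : TP ρ P ≤ FP ρ P := by
  have := Fintype.ofFinite P
  intro v hv y hy
  obtain ⟨u, hu⟩ := mem_TP.1 hv
  rw [← hu, map_sum, ← Equiv.sum_comp (Equiv.mulLeft (⟨y, hy⟩ : P)) (fun x : P => ρ (x : G) u)]
  refine Finset.sum_congr rfl fun x _ => ?_
  show ρ y (ρ (x : G) u) = ρ (y * (x : G)) u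
  rw [map_mul, Module.End.mul_apply]

end gen

section occ

variable {p : ℕ} {V : Type} [AddCommGroup V] [Module F V] {ρ : Representation F G V}
  {P : Sylow p G} {n : ℕ} {τ : Representation F (NN P) (Fin n → F)}

lemma nn (k : NN P) (h : G) : h ∈ (P : Subgroup G) ↔ (k : G) * h * (k : G)⁻¹ ∈ (P : Subgroup G) :=
  Subgroup.mem_normalizer_iff.1 k.2 h

/-- the step for the quotient -/
lemma quot_step (U : Submodule F V) (hU : ∀ g, U ≤ U.comap (ρ g)) (f : (Fin n → F) →ₗ[F] V)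
    (hf1 : ∀ w, f w ∈ FP ρ P) (hf2 : ∀ (k : NN P) (w : Fin n → F), ρ k (f w) - f (τ k w) ∈ TP ρ P)
    (hno : ¬ Occ P (ρ.quotient U hU) τ) (w : Fin n → F) :
    ∃ u ∈ U, u ∈ FP ρ P ∧ f w - u ∈ TP ρ P := by
  have := Fintype.ofFinite P
  have hφ : ∀ g v, U.mkQ (ρ g v) = (ρ.quotient U hU) g (U.mkQ v) := fun g v => rfl
  have h1 : U.mkQ (f w) ∈ TP (ρ.quotient U hU) P := by
    by_contra hcon
    refine hno ⟨U.mkQ.comp f, fun w => map_FP U.mkQ hφ (hf1 w), fun k w => ?_, w, hcon⟩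
    have h2 := map_TP U.mkQ hφ (hf2 k w)
    rw [map_sub, hφ] at h2
    exact h2
  obtain ⟨ub, hu⟩ := mem_TP.1 h1
  obtain ⟨u, rfl⟩ := U.mkQ_surjective ub
  obtain ⟨s, hs⟩ : ∃ s, s = ∑ x : P, ρ (x : G) u := ⟨_, rfl⟩
  have hsT : s ∈ TP ρ P := mem_TP.2 ⟨u, hs.symm⟩
  refine ⟨f w - s, ?_, (FP ρ P).sub_mem (hf1 w) (TP_le_FP hsT), ?_⟩
  · rw [← Submodule.ker_mkQ U, LinearMap.mem_ker, map_sub, sub_eq_zero, ← hu, hs, map_sum]
    exact Finset.sum_congr rfl fun x _ => (hφ _ _).symm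
  · rw [sub_sub_cancel]
    exact hsT

/-- a linear lift -/
lemma lin_lift (A T : Submodule F V) (f : (Fin n → F) →ₗ[F] V)
    (h : ∀ w, ∃ u ∈ A, f w - u ∈ T) :
    ∃ g : (Fin n → F) →ₗ[F] V, ∀ w, g w ∈ A ∧ f w - g w ∈ T := by
  choose u hu1 hu2 using fun i : Fin n => h (Pi.single i 1)
  refine ⟨∑ i, (LinearMap.proj i).smulRight (u i), fun w => ?_⟩
  have h1 : (∑ i, (LinearMap.proj i : (Fin n → F) →ₗ[F] F).smulRight (u i)) w = ∑ i, w i • u i := by
    rw [LinearMap.sum_apply]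
    rfl
  have h2 : f w = ∑ i, w i • f (Pi.single i 1) := by
    conv_lhs => rw [pi_eq_sum_univ' w]
    rw [map_sum]
    refine Finset.sum_congr rfl fun i _ => ?_
    rw [map_smul]
  rw [h1, h2]
  refine ⟨A.sum_mem fun i _ => A.smul_mem _ (hu1 i), ?_⟩
  rw [← Finset.sum_sub_distrib]
  refine T.sum_mem fun i _ => ?_
  rw [← smul_sub]
  exact T.smul_mem _ (hu2 i)

/-- averaging over a complement -/
lemma average [Fact p.Prime] [CharP F p] (hcard : Nat.card P = p)
    (hτ : ∀ x : NN P, (x : G) ∈ (P : Subgroup G) → τ x = 1)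
    (A : Submodule F V) (hA : A ≤ FP ρ P) (hAs : ∀ (k : NN P) (v : V), v ∈ A → ρ k v ∈ A)
    (f g₀ : (Fin n → F) →ₗ[F] V)
    (hf2 : ∀ (k : NN P) (w : Fin n → F), ρ k (f w) - f (τ k w) ∈ TP ρ P)
    (hg : ∀ w, g₀ w ∈ A ∧ f w - g₀ w ∈ TP ρ P) :
    ∃ g : (Fin n → F) →ₗ[F] V, (∀ w, g w ∈ A) ∧ (∀ w, f w - g w ∈ TP ρ P) ∧
      ∀ (k : NN P) (w : Fin n → F), ρ k (g w) = g (τ k w) := by
  have hle : (P : Subgroup G) ≤ NN P := Subgroup.le_normalizer
  obtain ⟨K, hK⟩ := Subgroup.exists_right_complement'_of_coprime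
    (N := (P : Subgroup G).subgroupOf (NN P)) (Sylow.card_coprime_index (P.subtype hle))
  have hcop : Nat.Coprime (Nat.card ((P : Subgroup G).subgroupOf (NN P)))
      ((P : Subgroup G).subgroupOf (NN P)).index := Sylow.card_coprime_index (P.subtype hle)
  have hc1 : Nat.card ((P : Subgroup G).subgroupOf (NN P)) = p := by
    rw [Nat.card_congr (Subgroup.subgroupOfEquivOfLe hle).toEquiv]
    exact hcard
  have hcK : ((Nat.card K : ℕ) : F) ≠ 0 := by
    rw [Ne, CharP.cast_eq_zero_iff F p]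
    intro hdvd
    have h2 : Nat.Coprime p (Nat.card K) := by
      rw [hc1, hK.symm.index_eq_card] at hcop
      exact hcop
    exact (Fact.out : p.Prime).one_lt.ne' (Nat.dvd_one.1 (h2 ▸ Nat.dvd_gcd dvd_rfl hdvd))
  have := Fintype.ofFinite K
  obtain ⟨c, hc⟩ : ∃ c : F, c = ((Nat.card K : ℕ) : F)⁻¹ := ⟨_, rfl⟩
  obtain ⟨g, hgdef⟩ : ∃ g : (Fin n → F) →ₗ[F] V, g = c • ∑ y : K,
    (ρ ((y : NN P) : G)) ∘ₗ g₀ ∘ₗ (τ (y : NN P)⁻¹) := ⟨_, rfl⟩
  have hgv : ∀ w, g w = c • ∑ y : K, ρ ((y : NN P) : G) (g₀ (τ (y : NN P)⁻¹ w)) := by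
    intro w
    rw [hgdef, LinearMap.smul_apply, LinearMap.sum_apply]
    rfl
  have hgA : ∀ w, g w ∈ A := by
    intro w
    rw [hgv]
    exact A.smul_mem _ (A.sum_mem fun y _ => hAs _ _ (hg _).1)
  refine ⟨g, hgA, ?_, ?_⟩
  · intro w
    have hterm : ∀ y : K, f w - ρ ((y : NN P) : G) (g₀ (τ (y : NN P)⁻¹ w)) ∈ TP ρ P := by
      intro y
      have h1 := TP_stable (ρ := ρ) ((y : NN P) : G) (nn (y : NN P)) (hg (τ (y : NN P)⁻¹ w)).2
      have h2 := hf2 (y : NN P) (τ (y : NN P)⁻¹ w)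
      rw [← Module.End.mul_apply, ← map_mul, mul_inv_cancel, map_one, Module.End.one_apply] at h2
      have h3 := (TP ρ P).sub_mem h1 h2
      rw [map_sub] at h3
      have h4 : ρ ((y : NN P) : G) (f (τ (y : NN P)⁻¹ w)) - ρ ((y : NN P) : G) (g₀ (τ (y : NN P)⁻¹ w)) -
          (ρ ((y : NN P) : G) (f (τ (y : NN P)⁻¹ w)) - f w) =
          f w - ρ ((y : NN P) : G) (g₀ (τ (y : NN P)⁻¹ w)) := by abel
      rwa [h4] at h3
    have h5 : f w - g w = c • ∑ y : K, (f w - ρ ((y : NN P) : G) (g₀ (τ (y : NN P)⁻¹ w))) := by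
      rw [Finset.sum_sub_distrib, smul_sub, ← hgv, Finset.sum_const, Finset.card_univ,
        ← Nat.card_eq_fintype_card, ← Nat.cast_smul_eq_nsmul F, smul_smul, hc, inv_mul_cancel₀ hcK,
        one_smul]
    rw [h5]
    exact (TP ρ P).smul_mem _ ((TP ρ P).sum_mem fun y _ => hterm y)
  · intro k w
    -- the complement
    have hKk : ∀ (y₀ : K) (w : Fin n → F), ρ ((y₀ : NN P) : G) (g w) = g (τ (y₀ : NN P) w) := by
      intro y₀ w
      rw [hgv, hgv, map_smul, map_sum, ← Equiv.sum_comp (Equiv.mulLeft y₀)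
        (fun y : K => ρ ((y : NN P) : G) (g₀ (τ (y : NN P)⁻¹ (τ (y₀ : NN P) w))))]
      congr 1
      refine Finset.sum_congr rfl fun y _ => ?_
      show ρ ((y₀ : NN P) : G) (ρ ((y : NN P) : G) (g₀ (τ (y : NN P)⁻¹ w))) =
        ρ (((y₀ * y : K) : NN P) : G) (g₀ (τ ((y₀ * y : K) : NN P)⁻¹ (τ (y₀ : NN P) w)))
      have e1 : (((y₀ * y : K) : NN P) : G) = ((y₀ : NN P) : G) * ((y : NN P) : G) := rfl
      have e2 : τ ((y₀ * y : K) : NN P)⁻¹ (τ (y₀ : NN P) w) = τ (y : NN P)⁻¹ w := by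
        rw [← Module.End.mul_apply, ← map_mul]
        congr 2
        show ((y₀ : NN P) * (y : NN P))⁻¹ * (y₀ : NN P) = (y : NN P)⁻¹
        group
      rw [e1, e2, map_mul, Module.End.mul_apply]
    obtain ⟨⟨x, y⟩, hxy⟩ := hK.2 k
    have hxP : ((x : NN P) : G) ∈ (P : Subgroup G) := Subgroup.mem_subgroupOf.1 x.2
    have hk : k = (x : NN P) * (y : NN P) := hxy.symm
    rw [hk]
    have e3 : (((x : NN P) * (y : NN P) : NN P) : G) = ((x : NN P) : G) * ((y : NN P) : G) := rfl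
    rw [e3, map_mul, Module.End.mul_apply, hKk y w, map_mul, Module.End.mul_apply,
      hτ _ hxP, Module.End.one_apply]
    exact hA (hgA _) _ hxP

/-- nonoccurrence passes to extensions -/
lemma extension [Fact p.Prime] [CharP F p] (hcard : Nat.card P = p)
    (hτ : ∀ x : NN P, (x : G) ∈ (P : Subgroup G) → τ x = 1)
    (U : Submodule F V) (hU : ∀ g, U ≤ U.comap (ρ g))
    (hno : ¬ Occ P (ρ.quotient U hU) τ) (hnoU : ¬ Occ P (ρ.subrepresentation U hU) τ) :
    ¬ Occ P ρ τ := by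
  rintro ⟨f, hf1, hf2, w₀, hw₀⟩
  have hstep := quot_step U hU f hf1 hf2 hno
  obtain ⟨g₀, hg₀⟩ := lin_lift (U ⊓ FP ρ P) (TP ρ P) f (fun w => by
    obtain ⟨u, h1, h2, h3⟩ := hstep w
    exact ⟨u, ⟨h1, h2⟩, h3⟩)
  obtain ⟨g, hgA, hgT, hgk⟩ := average hcard hτ (U ⊓ FP ρ P) inf_le_right
    (fun k v hv => ⟨hU _ hv.1, FP_stable _ (nn k) hv.2⟩) f g₀ hf2 hg₀
  have hincl : ∀ (x : G) (v : U), U.subtype ((ρ.subrepresentation U hU) x v) = ρ x (U.subtype v) :=
    fun x v => rfl
  refine hnoU ⟨LinearMap.codRestrict U g (fun w => (hgA w).1), fun w x hx => ?_, fun k w => ?_,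
    w₀, fun hcon => ?_⟩
  · apply Subtype.ext
    exact (hgA w).2 x hx
  · have h1 : (ρ.subrepresentation U hU) k (LinearMap.codRestrict U g (fun w => (hgA w).1) w) -
        LinearMap.codRestrict U g (fun w => (hgA w).1) (τ k w) = 0 := by
      rw [sub_eq_zero]
      apply Subtype.ext
      exact hgk k w
    rw [h1]
    exact (TP _ _).zero_mem
  · have h1 := map_TP (ρ₂ := ρ) U.subtype hincl hcon
    have h2 : U.subtype (LinearMap.codRestrict U g (fun w => (hgA w).1) w₀) = g w₀ := rfl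
    rw [h2] at h1
    apply hw₀
    have h3 := (TP ρ P).add_mem (hgT w₀) h1
    rwa [sub_add_cancel] at h3

/-- transport of `Occ` -/
lemma occ_equiv {V₂ : Type} [AddCommGroup V₂] [Module F V₂] {ρ₂ : Representation F G V₂}
    (e : V ≃ₗ[F] V₂) (he : ∀ g v, e (ρ g v) = ρ₂ g (e v)) (h : Occ P ρ τ) : Occ P ρ₂ τ := by
  obtain ⟨f, hf1, hf2, w₀, hw₀⟩ := h
  refine ⟨(e : V →ₗ[F] V₂) ∘ₗ f, fun w => map_FP (e : V →ₗ[F] V₂) he (hf1 w), fun k w => ?_, w₀,
    fun hcon => hw₀ ?_⟩
  · have h1 := map_TP (e : V →ₗ[F] V₂) he (hf2 k w)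
    rw [map_sub] at h1
    have h2 : (e : V →ₗ[F] V₂) (ρ k (f w)) = ρ₂ k (e (f w)) := he _ _
    rw [h2] at h1
    exact h1
  · have he' : ∀ g v, e.symm (ρ₂ g v) = ρ g (e.symm v) := by
      intro g v
      apply e.injective
      rw [he, e.apply_symm_apply, e.apply_symm_apply]
    have h1 := map_TP (e.symm : V₂ →ₗ[F] V) he' hcon
    have h2 : (e.symm : V₂ →ₗ[F] V) (((e : V →ₗ[F] V₂) ∘ₗ f) w₀) = f w₀ :=
      e.symm_apply_apply (f w₀)
    rwa [h2] at h1

end occ

section irr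

variable {V : Type} [AddCommGroup V] [Module F V] {ρ : Representation F G V}

/-- the transported representation -/
def trans {V₂ : Type} [AddCommGroup V₂] [Module F V₂] (ρ : Representation F G V)
    (e : V ≃ₗ[F] V₂) : Representation F G V₂ where
  toFun g := (e : V →ₗ[F] V₂) ∘ₗ ρ g ∘ₗ (e.symm : V₂ →ₗ[F] V)
  map_one' := by
    ext v
    simp
  map_mul' g h := by
    ext v
    simp

lemma trans_apply {V₂ : Type} [AddCommGroup V₂] [Module F V₂] (e : V ≃ₗ[F] V₂) (g : G) (v : V) :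
    e (ρ g v) = trans ρ e g (e v) := by
  show e (ρ g v) = e (ρ g (e.symm (e v)))
  rw [e.symm_apply_apply]

lemma trans_irr {V₂ : Type} [AddCommGroup V₂] [Module F V₂] (e : V ≃ₗ[F] V₂)
    (h : ρ.IsIrreducible) : (trans ρ e).IsIrreducible := by
  have hstab : ∀ σ : Subrepresentation (trans ρ e), ∀ g : G, ∀ v ∈ σ.toSubmodule.comap
      (e : V →ₗ[F] V₂), ρ g v ∈ σ.toSubmodule.comap (e : V →ₗ[F] V₂) := by
    intro σ g v hv
    rw [Submodule.mem_comap] at hv ⊢
    have h1 : (e : V →ₗ[F] V₂) (ρ g v) = trans ρ e g (e v) := trans_apply e g v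
    rw [h1]
    exact σ.apply_mem_toSubmodule g hv
  have hnt : Nontrivial (Subrepresentation (trans ρ e)) := by
    obtain ⟨v, hv⟩ : ∃ v : V, v ≠ 0 := by
      by_contra hcon
      push Not at hcon
      have h1 : (⊥ : Subrepresentation ρ) = ⊤ := by
        apply Subrepresentation.toSubmodule_injective
        ext v
        constructor
        · intro _; trivial
        · intro _
          rw [hcon v]
          exact Submodule.zero_mem _
      exact (bot_ne_top h1)
    refine ⟨⟨⊥, ⊤, fun h1 => ?_⟩⟩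
    have h2 : e v ∈ (⊥ : Subrepresentation (trans ρ e)).toSubmodule := by
      rw [h1]; trivial
    have h3 : e v = 0 := h2
    exact hv (e.map_eq_zero_iff.1 h3)
  refine { toNontrivial := hnt, eq_bot_or_eq_top := fun σ => ?_ }
  rcases h.eq_bot_or_eq_top (⟨σ.toSubmodule.comap (e : V →ₗ[F] V₂), fun g v hv =>
    hstab σ g v hv⟩ : Subrepresentation ρ) with h1 | h1
  · left
    apply Subrepresentation.toSubmodule_injective
    ext v
    constructor
    · intro hv
      have h2 : e.symm v ∈ (⊥ : Subrepresentation ρ).toSubmodule := by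
        rw [← h1]
        show e (e.symm v) ∈ σ.toSubmodule
        rw [e.apply_symm_apply]
        exact hv
      have h3 : e.symm v = 0 := h2
      have h4 : v = 0 := by
        rw [← e.apply_symm_apply v, h3, map_zero]
      rw [h4]
      exact Submodule.zero_mem _
    · intro hv
      have h3 : v = 0 := hv
      rw [h3]
      exact Submodule.zero_mem _
  · right
    apply Subrepresentation.toSubmodule_injective
    ext v
    constructor
    · intro _; trivial
    · intro _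
      have h2 : e.symm v ∈ (⟨σ.toSubmodule.comap (e : V →ₗ[F] V₂), fun g v hv =>
          hstab σ g v hv⟩ : Subrepresentation ρ).toSubmodule := by
        rw [h1]; trivial
      have h3 : e (e.symm v) ∈ σ.toSubmodule := h2
      rwa [e.apply_symm_apply] at h3

/-- a nonzero representation which is not irreducible has a proper subspace -/
lemma exists_proper (h : ¬ ρ.IsIrreducible) (hV : Nontrivial V) :
    ∃ U : Submodule F V, (∀ g, U ≤ U.comap (ρ g)) ∧ U ≠ ⊥ ∧ U ≠ ⊤ := by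
  by_contra hcon
  push Not at hcon
  apply h
  have hnt : Nontrivial (Subrepresentation ρ) := by
    obtain ⟨v, hv⟩ := exists_ne (0 : V)
    refine ⟨⟨⊥, ⊤, fun h1 => ?_⟩⟩
    have h2 : v ∈ (⊥ : Subrepresentation ρ).toSubmodule := by
      rw [h1]; trivial
    exact hv h2
  refine { toNontrivial := hnt, eq_bot_or_eq_top := fun σ => ?_ }
  by_cases h1 : σ.toSubmodule = ⊥
  · left
    exact Subrepresentation.toSubmodule_injective h1
  · right
    exact Subrepresentation.toSubmodule_injective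
      (hcon σ.toSubmodule (fun g v hv => σ.apply_mem_toSubmodule g hv) h1)

end irr

section main

variable {p : ℕ} {P : Sylow p G} {n : ℕ} {τ : Representation F (NN P) (Fin n → F)}

lemma no_occ [Fact p.Prime] [CharP F p] (hcard : Nat.card P = p)
    (hτ : ∀ x : NN P, (x : G) ∈ (P : Subgroup G) → τ x = 1)
    (hno : ∀ (m : ℕ) (ρ : Representation F G (Fin m → F)), ρ.IsIrreducible → ¬ Occ P ρ τ) :
    ∀ (d : ℕ) (V : Type) [AddCommGroup V] [Module F V] [FiniteDimensional F V]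
      (ρ : Representation F G V), Module.finrank F V = d → ¬ Occ P ρ τ := by
  intro d
  induction d using Nat.strongRecOn with
  | ind d ih =>
    intro V _ _ _ ρ hd
    by_cases hirr : ρ.IsIrreducible
    · intro hocc
      obtain ⟨e⟩ : Nonempty (V ≃ₗ[F] (Fin (Module.finrank F V) → F)) :=
        ⟨(Module.finBasis F V).equivFun⟩
      exact hno _ (trans ρ e) (trans_irr e hirr) (occ_equiv e (trans_apply e) hocc)
    · by_cases hV : Nontrivial V
      · obtain ⟨U, hU, hU0, hU1⟩ := exists_proper hirr hV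
        have h1 : Module.finrank F U < d := by
          rw [← hd]
          exact Submodule.finrank_lt hU1
        have h2 : Module.finrank F (V ⧸ U) < d := by
          have h3 := Submodule.finrank_quotient_add_finrank U
          have h4 : 0 < Module.finrank F U := by
            rw [Nat.pos_iff_ne_zero]
            intro h0
            exact hU0 (Submodule.finrank_eq_zero.1 h0)
          omega
        exact extension hcard hτ U hU (ih _ h2 (V ⧸ U) _ rfl) (ih _ h1 U _ rfl)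
      · rintro ⟨f, _, _, w₀, hw₀⟩
        rw [not_nontrivial_iff_subsingleton] at hV
        apply hw₀
        have : f w₀ = 0 := Subsingleton.elim _ _
        rw [this]
        exact Submodule.zero_mem _

/-- right translation of functions -/
def rt (W : Type) [AddCommGroup W] [Module F W] : Representation F G (G → W) where
  toFun g := LinearMap.funLeft F W (fun h => h * g)
  map_one' := by
    ext f h
    simp [LinearMap.funLeft_apply]
  map_mul' g g' := by
    apply LinearMap.ext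
    intro f
    funext h
    show f (h * (g * g')) = f (h * g * g')
    rw [mul_assoc]

/-- the induced representation, as a space of functions -/
def indS (τ : Representation F (NN P) (Fin n → F)) : Submodule F (G → (Fin n → F)) where
  carrier := {f | ∀ (k : NN P) (g : G), f ((k : G) * g) = τ k (f g)}
  add_mem' := by
    intro a b ha hb k g
    rw [Pi.add_apply, Pi.add_apply, ha k g, hb k g, map_add]
  zero_mem' := fun k g => by
    rw [Pi.zero_apply, Pi.zero_apply, map_zero]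
  smul_mem' := by
    intro c a ha k g
    rw [Pi.smul_apply, Pi.smul_apply, ha k g, map_smul]

lemma indS_stable (g : G) : indS τ ≤ (indS τ).comap (rt (F := F) (Fin n → F) g) := by
  intro f hf k h
  show f ((k : G) * h * g) = τ k (f (h * g))
  rw [mul_assoc]
  exact hf k (h * g)

lemma ind_occ [Fact p.Prime] [CharP F p] (hcard : Nat.card P = p)
    (hτ : ∀ x : NN P, (x : G) ∈ (P : Subgroup G) → τ x = 1) (w₀ : Fin n → F) (hw₀ : w₀ ≠ 0) :
    Occ P ((rt (F := F) (Fin n → F)).subrepresentation (indS τ) indS_stable) τ := by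
  have := Fintype.ofFinite P
  have hle : ∀ x ∈ (P : Subgroup G), x ∈ NN P := fun x hx => Subgroup.le_normalizer hx
  obtain ⟨q, hq⟩ : ∃ q : (Fin n → F) → G → (Fin n → F), q = fun w h =>
    if hh : h ∈ NN P then τ ⟨h, hh⟩ w else 0 := ⟨_, rfl⟩
  have hq1 : ∀ w (h : G) (hh : h ∈ NN P), q w h = τ ⟨h, hh⟩ w := by
    intro w h hh
    rw [hq]
    exact dif_pos hh
  have hq2 : ∀ w (h : G), h ∉ NN P → q w h = 0 := by
    intro w h hh
    rw [hq]
    exact dif_neg hh
  have hqmem : ∀ w, q w ∈ indS τ := by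
    intro w k h
    by_cases hh : h ∈ NN P
    · rw [hq1 w h hh, hq1 w _ ((NN P).mul_mem k.2 hh), ← Module.End.mul_apply, ← map_mul]
      rfl
    · rw [hq2 w h hh, hq2 w _ (fun hcon => hh (((NN P).mul_mem_cancel_left k.2).1 hcon)), map_zero]
  obtain ⟨f, hf⟩ : ∃ f : (Fin n → F) →ₗ[F] indS τ, ∀ w, ((f w : indS τ) : G → (Fin n → F)) = q w := by
    refine ⟨LinearMap.mk (AddHom.mk (fun w => ⟨q w, hqmem w⟩) fun a b => ?_) fun c a => ?_,
      fun w => rfl⟩
    · apply Subtype.ext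
      funext h
      show q (a + b) h = q a h + q b h
      by_cases hh : h ∈ NN P
      · rw [hq1 _ h hh, hq1 _ h hh, hq1 _ h hh, map_add]
      · rw [hq2 _ h hh, hq2 _ h hh, hq2 _ h hh, add_zero]
    · apply Subtype.ext
      funext h
      show q (c • a) h = c • q a h
      by_cases hh : h ∈ NN P
      · rw [hq1 _ h hh, hq1 _ h hh, map_smul]
      · rw [hq2 _ h hh, hq2 _ h hh, smul_zero]
  have hact : ∀ (k : NN P) (w : Fin n → F) (h : G), q w (h * k) = q (τ k w) h := by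
    intro k w h
    by_cases hh : h ∈ NN P
    · rw [hq1 _ h hh, hq1 w _ ((NN P).mul_mem hh k.2), ← Module.End.mul_apply, ← map_mul]
      rfl
    · rw [hq2 _ h hh, hq2 w _ (fun hcon => hh (((NN P).mul_mem_cancel_right k.2).1 hcon))]
  refine ⟨f, fun w x hx => ?_, fun k w => ?_, w₀, fun hcon => ?_⟩
  · apply Subtype.ext
    funext h
    show (f w : G → (Fin n → F)) (h * x) = (f w : G → (Fin n → F)) h
    rw [hf]
    have h1 := hact ⟨x, hle x hx⟩ w h
    rw [hτ ⟨x, hle x hx⟩ hx] at h1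
    exact h1
  · have h1 : ((rt (F := F) (Fin n → F)).subrepresentation (indS τ) indS_stable) k (f w) -
        f (τ k w) = 0 := by
      rw [sub_eq_zero]
      apply Subtype.ext
      funext h
      show (f w : G → (Fin n → F)) (h * k) = (f (τ k w) : G → (Fin n → F)) h
      rw [hf, hf]
      exact hact k w h
    rw [h1]
    exact Submodule.zero_mem _
  · obtain ⟨u, hu⟩ := mem_TP.1 hcon
    have h1 : ((f w₀ : indS τ) : G → (Fin n → F)) 1 = w₀ := by
      rw [hf, hq1 w₀ 1 (NN P).one_mem]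
      have : (⟨1, (NN P).one_mem⟩ : NN P) = 1 := rfl
      rw [this, map_one]
      rfl
    have h2 : ((f w₀ : indS τ) : G → (Fin n → F)) 1 =
        ∑ x : P, ((u : indS τ) : G → (Fin n → F)) (x : G) := by
      rw [← hu]
      rw [Submodule.coe_sum, Finset.sum_apply]
      refine Finset.sum_congr rfl fun x _ => ?_
      show ((u : indS τ) : G → (Fin n → F)) (1 * (x : G)) = _
      rw [one_mul]
    have h3 : ∀ x : P, ((u : indS τ) : G → (Fin n → F)) (x : G) =
        ((u : indS τ) : G → (Fin n → F)) 1 := by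
      intro x
      have h4 := u.2 ⟨(x : G), hle _ x.2⟩ 1
      rw [mul_one, hτ ⟨(x : G), hle _ x.2⟩ x.2] at h4
      exact h4
    have h6 : ∑ x : P, ((u : indS τ) : G → (Fin n → F)) (x : G) =
        ∑ _x : P, ((u : indS τ) : G → (Fin n → F)) 1 := Finset.sum_congr rfl fun x _ => h3 x
    rw [h1] at h2
    have h7 := h2.trans h6
    rw [Finset.sum_const, Finset.card_univ, ← Nat.card_eq_fintype_card] at h7
    have h5 : Nat.card (P : Subgroup G) = p := hcard
    rw [h5, ← Nat.cast_smul_eq_nsmul F, CharP.cast_eq_zero F p, zero_smul] at h7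
    exact hw₀ h7

end main

end Pool.Agent.K3h42.IN.M3

namespace Pool.Agent.K3h42.IN

open Pool.Agent.K3h83.IN Pool.Agent.K3h3.MK

/-- Brick M3. -/
theorem t_M3 : M3 := by
  intro p _ F _ _ _ G _ _ P hcard n τ hirr hτ
  by_contra hcon
  push Not at hcon
  obtain ⟨w₀, hw₀⟩ : ∃ w₀ : Fin n → F, w₀ ≠ 0 := by
    by_contra hc
    push Not at hc
    have h1 : (⊥ : Subrepresentation τ) = ⊤ := by
      apply Subrepresentation.toSubmodule_injective
      ext v
      constructor
      · intro _; trivial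
      · intro _
        rw [hc v]
        exact Submodule.zero_mem _
    exact bot_ne_top h1
  exact M3.no_occ hcard hτ hcon _ _ _ rfl (M3.ind_occ hcard hτ w₀ hw₀)

end Pool.Agent.K3h42.IN
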